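import Pool.Agent.Results.MP_81e7df_gt.SepMA

/-!
# Countable spread of `C_p(X)` under Martin's axiom for `ℵ₁` dense sets

If `C_p(X)` has countable spread, then every subspace of `X` is separable and Lindelöf. Only
Martin's axiom for `ℵ₁` dense sets is used.

For separability one thins out a left separated sequence, for the Lindelöf property a right
separated one. In both cases an uncountable antichain of blocks gives an uncountable discrete set of
differences of two maxima of functions.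
-/

set_option autoImplicit false
set_option linter.unusedSectionVars false

universe u

namespace Pool.Agent.Results.MP_81e7df_gt.HereditaryBoth

open Set Cardinal
open Pool.Agent.Results.MP_81e7df_gt.SepMA

/-- Martin's axiom for `ℵ₁` dense sets: for every nonempty ccc partially ordered set and every
family of at most `ℵ₁` dense subsets there is a filter meeting all of them. -/
def MAaleph1 : Prop :=
  ∀ (P : Type) [PartialOrder P] [Nonempty P], CCC P →
    ∀ 𝒟 : Set (Set P), #𝒟 ≤ ℵ₁ → (∀ D ∈ 𝒟, ∀ p : P, ∃ q ∈ D, q ≤ p) →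
      ∃ G : Set P, G.Nonempty ∧ (∀ p ∈ G, ∀ q : P, p ≤ q → q ∈ G) ∧
        (∀ p ∈ G, ∀ q ∈ G, ∃ r ∈ G, r ≤ p ∧ r ≤ q) ∧ ∀ D ∈ 𝒟, (G ∩ D).Nonempty

section main

variable {W : Type} [LinearOrder W] [WellFoundedLT W]

/-- the finite sets without bad pairs -/
def Fine (R : W → W → Prop) (E : Finset W) : Prop :=
  ∀ η ∈ E, ∀ ξ ∈ E, η < ξ → ¬ R η ξ

/-- there is no increasing sequence of pairwise incompatible blocks -/
def NoBlocks (R : W → W → Prop) : Prop :=
  ∀ E : W → Finset W, (∀ i, (E i).Nonempty) →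
    (∀ i j, i < j → ∀ η ∈ E i, ∀ ξ ∈ E j, η < ξ) →
    ¬ ∀ i j, i < j → ∃ η ∈ E i, ∃ ξ ∈ E j, R η ξ

lemma no_antichain (hc : ∀ a : W, (Iio a).Countable) (hu : ¬ Countable W)
    (R : W → W → Prop) (hR : NoBlocks R) (n : ℕ) :
    ∀ 𝒜 : Set (Finset W), (∀ E ∈ 𝒜, E.card = n) → (∀ E ∈ 𝒜, Fine R E) →
      (∀ E ∈ 𝒜, ∀ E' ∈ 𝒜, E ≠ E' → ¬ Fine R (E ∪ E')) → 𝒜.Countable := by
  classical
  induction n with
  | zero =>
    intro 𝒜 h1 _ _
    refine (Set.countable_singleton (∅ : Finset W)).mono ?_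
    intro E hE
    exact Finset.card_eq_zero.mp (h1 E hE)
  | succ n ih =>
    intro 𝒜 h1 h2 h3
    by_contra hunc
    -- each point lies in countably many members
    have hpt : ∀ w : W, {E ∈ 𝒜 | w ∈ E}.Countable := by
      intro w
      have hinj : Set.InjOn (fun E : Finset W => E.erase w) {E ∈ 𝒜 | w ∈ E} := by
        intro E hE E' hE' hEE'
        have h4 : E.erase w = E'.erase w := hEE'
        rw [← Finset.insert_erase hE.2, ← Finset.insert_erase hE'.2, h4]
      have h5 : ((fun E : Finset W => E.erase w) '' {E ∈ 𝒜 | w ∈ E}).Countable := by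
        apply ih
        · rintro _ ⟨E, hE, rfl⟩
          simp only [Finset.card_erase_of_mem hE.2, h1 E hE.1, Nat.add_sub_cancel]
        · rintro _ ⟨E, hE, rfl⟩ η hη ξ hξ hlt
          exact h2 E hE.1 η (Finset.mem_of_mem_erase hη) ξ (Finset.mem_of_mem_erase hξ) hlt
        · rintro _ ⟨E, hE, rfl⟩ _ ⟨E', hE', rfl⟩ hne hOK
          have hne' : E ≠ E' := by
            rintro rfl
            exact hne rfl
          apply h3 E hE.1 E' hE'.1 hne'
          intro η hη ξ hξ hlt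
          by_cases h6 : η ∈ E ∧ ξ ∈ E
          · exact h2 E hE.1 η h6.1 ξ h6.2 hlt
          by_cases h7 : η ∈ E' ∧ ξ ∈ E'
          · exact h2 E' hE'.1 η h7.1 ξ h7.2 hlt
          have hηw : η ≠ w := by
            rintro rfl
            rcases Finset.mem_union.mp hξ with h8 | h8
            · exact h6 ⟨hE.2, h8⟩
            · exact h7 ⟨hE'.2, h8⟩
          have hξw : ξ ≠ w := by
            rintro rfl
            rcases Finset.mem_union.mp hη with h8 | h8
            · exact h6 ⟨h8, hE.2⟩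
            · exact h7 ⟨h8, hE'.2⟩
          refine hOK η ?_ ξ ?_ hlt
          · simp only [Finset.mem_union, Finset.mem_erase]
            rcases Finset.mem_union.mp hη with h8 | h8
            · exact Or.inl ⟨hηw, h8⟩
            · exact Or.inr ⟨hηw, h8⟩
          · simp only [Finset.mem_union, Finset.mem_erase]
            rcases Finset.mem_union.mp hξ with h8 | h8
            · exact Or.inl ⟨hξw, h8⟩
            · exact Or.inr ⟨hξw, h8⟩
      exact Set.countable_of_injective_of_countable_image hinj h5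
    -- choose an increasing sequence
    have hgood : ∀ B : Set 𝒜, B.Countable → ∃ E : 𝒜, ∀ E' ∈ B, ∀ η ∈ E'.1, ∀ ξ ∈ E.1, η < ξ := by
      intro B hB
      have hU : (⋃ E' ∈ B, (E'.1 : Set W)).Countable :=
        hB.biUnion (fun E' _ => E'.1.countable_toSet)
      obtain ⟨b, hb⟩ := exists_bound hc hu hU
      have hbad : (⋃ w ∈ Iio b, {E ∈ 𝒜 | w ∈ E}).Countable :=
        (hc b).biUnion (fun w _ => hpt w)
      obtain ⟨E, hE, hEb⟩ : ∃ E ∈ 𝒜, E ∉ ⋃ w ∈ Iio b, {E ∈ 𝒜 | w ∈ E} := by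
        by_contra hno
        push Not at hno
        exact hunc (hbad.mono hno)
      refine ⟨⟨E, hE⟩, fun E' hE' η hη ξ hξ => ?_⟩
      have h4 : η < b := hb η (mem_biUnion hE' hη)
      have h5 : ¬ ξ < b := by
        intro h6
        exact hEb (mem_biUnion h6 ⟨hE, hξ⟩)
      exact h4.trans_le (not_lt.mp h5)
    obtain ⟨p, hp⟩ := rec_seq (W := W) hc
      (fun (B : Set 𝒜) (E : 𝒜) => ∀ E' ∈ B, ∀ η ∈ E'.1, ∀ ξ ∈ E.1, η < ξ) hgood
    have hlt : ∀ i j, i < j → ∀ η ∈ (p i).1, ∀ ξ ∈ (p j).1, η < ξ :=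
      fun i j hij => hp j (p i) (mem_image_of_mem p hij)
    have hne : ∀ i, (p i).1.Nonempty := fun i => by
      rw [← Finset.card_pos, h1 _ (p i).2]
      exact Nat.succ_pos n
    refine hR (fun i => (p i).1) hne hlt ?_
    intro i j hij
    have hnij : (p i).1 ≠ (p j).1 := by
      intro h
      obtain ⟨ξ, hξ⟩ := hne i
      exact lt_irrefl ξ (hlt i j hij ξ hξ ξ (h ▸ hξ))
    have h4 := h3 _ (p i).2 _ (p j).2 hnij
    unfold Fine at h4
    push Not at h4
    obtain ⟨η, hη, ξ, hξ, hηξ, h5⟩ := h4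
    have hcase : η ∈ (p i).1 ∧ ξ ∈ (p j).1 := by
      rcases Finset.mem_union.mp hη with h6 | h6 <;> rcases Finset.mem_union.mp hξ with h7 | h7
      · exact absurd h5 (h2 _ (p i).2 η h6 ξ h7 hηξ)
      · exact ⟨h6, h7⟩
      · exact absurd (hlt i j hij ξ h7 η h6) (lt_asymm hηξ)
      · exact absurd h5 (h2 _ (p j).2 η h6 ξ h7 hηξ)
    exact ⟨η, hcase.1, ξ, hcase.2, h5⟩

/-- The uncountable homogeneous set given by Martin's axiom. -/
lemma homogeneous (hMA : MAaleph1) (hW : #W = ℵ₁) (hc : ∀ a : W, (Iio a).Countable)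
    (hu : ¬ Countable W) (R : W → W → Prop) (hR : NoBlocks R) :
    ∃ S : Set W, ¬ S.Countable ∧ ∀ η ∈ S, ∀ ξ ∈ S, η < ξ → ¬ R η ξ := by
  classical
  -- the poset
  let P : Type := {E : (Finset W)ᵒᵈ // Fine R (OrderDual.ofDual E)}
  have hccc : CCC P := by
    intro 𝒜 h𝒜
    let cv : P → Finset W := fun q => OrderDual.ofDual q.1
    have hcv : Function.Injective cv := fun a b h => Subtype.ext (OrderDual.ofDual.injective h)
    have h1 : ∀ n : ℕ, {E ∈ cv '' 𝒜 | E.card = n}.Countable := by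
      intro n
      apply no_antichain hc hu R hR n
      · intro E hE
        exact hE.2
      · rintro _ ⟨⟨q, _, rfl⟩, _⟩
        exact q.2
      · rintro _ ⟨⟨q, hq, rfl⟩, _⟩ _ ⟨⟨q', hq', rfl⟩, _⟩ hne hOK
        have hne' : q ≠ q' := by
          rintro rfl
          exact hne rfl
        apply h𝒜 q hq q' hq' hne'
        refine ⟨⟨OrderDual.toDual (cv q ∪ cv q'), hOK⟩, ?_, ?_⟩
        · exact Finset.subset_union_left
        · exact Finset.subset_union_right
    have h2 : (cv '' 𝒜).Countable := by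
      refine (Set.countable_iUnion h1).mono ?_
      intro E hE
      exact mem_iUnion.mpr ⟨E.card, hE, rfl⟩
    exact Set.countable_of_injective_of_countable_image hcv.injOn h2
  have hmem : ∀ q r : P, q ≤ r → ∀ ξ ∈ OrderDual.ofDual r.1, ξ ∈ OrderDual.ofDual q.1 :=
    fun q r h => h
  -- a condition forcing the generic to be unbounded
  have hp0 : ∃ p0 : P, ∀ α : W, ∀ q ≤ p0, ∃ r ≤ q, ∃ ξ ∈ OrderDual.ofDual r.1, α < ξ := by
    by_contra hno
    push Not at hno
    choose a Q hQ1 hQ2 using hno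
    let sg : W → P := fun ξ => ⟨OrderDual.toDual {ξ}, by
      intro η hη ξ' hξ' hlt
      have h1 : η = ξ := by simpa using hη
      have h2 : ξ' = ξ := by simpa using hξ'
      rw [h1, h2] at hlt
      exact absurd hlt (lt_irrefl _)⟩
    have hsg : ∀ ξ, ξ ∈ OrderDual.ofDual (Q (sg ξ)).1 := fun ξ =>
      hmem _ _ (hQ1 (sg ξ)) ξ (Finset.mem_singleton_self ξ)
    obtain ⟨t, ht⟩ := rec_seq (W := W) hc
      (fun (B : Set W) (t : W) => ∀ η ∈ B, a (sg η) < t) (by
        intro B hB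
        obtain ⟨b, hb⟩ := exists_bound hc hu (hB.image (fun η => a (sg η)))
        exact ⟨b, fun η hη => hb _ (mem_image_of_mem _ hη)⟩)
    have ht' : ∀ j i, j < i → a (sg (t j)) < t i := fun j i hji => ht i (t j) (mem_image_of_mem t hji)
    have hinc : ∀ j i, j < i → ¬ ∃ r : P, r ≤ Q (sg (t j)) ∧ r ≤ Q (sg (t i)) := by
      rintro j i hji ⟨r, hr1, hr2⟩
      exact hQ2 (sg (t j)) r hr1 (t i) (hmem _ _ hr2 _ (hsg (t i))) |>.not_gt (ht' j i hji)
    have hinj : Function.Injective (fun i => Q (sg (t i))) := by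
      intro i j hij
      have hij' : Q (sg (t i)) = Q (sg (t j)) := hij
      rcases lt_trichotomy i j with h | h | h
      · exact absurd ⟨Q (sg (t i)), le_rfl, hij'.le⟩ (hinc i j h)
      · exact h
      · exact absurd ⟨Q (sg (t i)), hij'.le, le_rfl⟩ (hinc j i h)
    have hcount := hccc (range (fun i => Q (sg (t i)))) (by
      rintro _ ⟨i, rfl⟩ _ ⟨j, rfl⟩ hne
      have hij : i ≠ j := by
        rintro rfl
        exact hne rfl
      rcases lt_or_gt_of_ne hij with h | h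
      · exact hinc i j h
      · rintro ⟨r, hr1, hr2⟩
        exact hinc j i h ⟨r, hr2, hr1⟩)
    apply hu
    have h1 : Countable (range (fun i => Q (sg (t i)))) := hcount.to_subtype
    exact (Equiv.ofInjective _ hinj).countable_iff.mpr h1
  obtain ⟨p0, hp0⟩ := hp0
  let P' : Type := {q : P // q ≤ p0}
  have hne' : Nonempty P' := ⟨⟨p0, le_rfl⟩⟩
  have hccc' : CCC P' := by
    intro 𝒜 h𝒜
    have h1 := hccc (Subtype.val '' 𝒜) (by
      rintro _ ⟨q, hq, rfl⟩ _ ⟨q', hq', rfl⟩ hne ⟨r, hr1, hr2⟩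
      refine h𝒜 q hq q' hq' (fun h => hne (by rw [h])) ⟨⟨r, hr1.trans q.2⟩, hr1, hr2⟩)
    exact Set.countable_of_injective_of_countable_image Subtype.val_injective.injOn h1
  let Dn : W → Set P' := fun α => {q | ∃ ξ ∈ OrderDual.ofDual q.1.1, α < ξ}
  obtain ⟨G, _, hGup, hGdir, hGD⟩ := hMA P' hccc' (range Dn)
    (le_of_le_of_eq (Cardinal.mk_range_le) hW) (by
      rintro _ ⟨α, rfl⟩ q
      obtain ⟨r, hr, ξ, hξ, hα⟩ := hp0 α q.1 q.2
      exact ⟨⟨r, hr.trans q.2⟩, ⟨ξ, hξ, hα⟩, hr⟩)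
  refine ⟨{ξ | ∃ q ∈ G, ξ ∈ OrderDual.ofDual q.1.1}, ?_, ?_⟩
  · intro hS
    obtain ⟨b, hb⟩ := exists_bound hc hu hS
    obtain ⟨q, hqG, ξ, hξ, hbξ⟩ := hGD (Dn b) (mem_range_self b)
    exact absurd (hb ξ ⟨q, hqG, hξ⟩) (lt_asymm hbξ)
  · rintro η ⟨q1, hq1, hη⟩ ξ ⟨q2, hq2, hξ⟩ hlt
    obtain ⟨r, _, hr1, hr2⟩ := hGdir q1 hq1 q2 hq2
    exact r.1.2 η (hmem _ _ hr1 η hη) ξ (hmem _ _ hr2 ξ hξ) hlt

variable {X : Type u} [TopologicalSpace X]

/-- the dual of `blocks`: functions which vanish at the later points -/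
lemma blocks_dual (hc : ∀ a : W, (Iio a).Countable) (hu : ¬ Countable W)
    (hs : ∀ D : Set {f : X → ℝ // Continuous f}, DiscreteTopology D → D.Countable)
    (x : W → X) (g : W → X → ℝ) (hgc : ∀ ξ, Continuous (g ξ))
    (hg0 : ∀ ξ y, 0 ≤ g ξ y) (hg1 : ∀ ξ y, g ξ y ≤ 1)
    (hgx : ∀ ξ, g ξ (x ξ) = 1) (hgl : ∀ η ξ, η < ξ → g η (x ξ) = 0)
    (E : W → Finset W) (hne : ∀ i, (E i).Nonempty)
    (hlt : ∀ i j, i < j → ∀ η ∈ E i, ∀ ξ ∈ E j, η < ξ)
    (hinc : ∀ i j, i < j → ∃ η ∈ E i, ∃ ξ ∈ E j, 1 / 2 < g ξ (x η)) : False := by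
  classical
  have hsucc : ∀ i : W, ∃ j, i < j := by
    intro i
    obtain ⟨b, hb⟩ := exists_bound hc hu (A := {i}) (by simp)
    exact ⟨b, hb i (by simp)⟩
  -- the successor of i
  let s : W → W := fun i => wellFounded_lt.min {j | i < j} (hsucc i)
  have hs1 : ∀ i, i < s i := fun i => wellFounded_lt.min_mem {j | i < j} (hsucc i)
  have hs2 : ∀ i j, i < j → s i ≤ j := by
    intro i j hij
    by_contra h
    exact wellFounded_lt.not_lt_min {j | i < j} (x := j) hij (lt_of_not_ge h)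
  let F : W → X → ℝ := fun i y => (E i).sup' (hne i) (fun η => g η y)
  have hFc : ∀ i, Continuous (F i) := fun i =>
    Continuous.finset_sup'_apply (hne i) (fun η _ => hgc η)
  have hF1 : ∀ i y, F i y ≤ 1 := fun i y => Finset.sup'_le _ _ (fun η _ => hg1 η y)
  have hF0 : ∀ i y, 0 ≤ F i y := fun i y => by
    obtain ⟨η, hη⟩ := hne i
    exact (hg0 η y).trans (Finset.le_sup' (fun η => g η y) hη)
  have hFlow : ∀ i j, i < j → ∀ ξ ∈ E j, F i (x ξ) = 0 := by
    intro i j hij ξ hξ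
    apply le_antisymm
    · apply Finset.sup'_le
      intro η hη
      exact (hgl η ξ (hlt i j hij η hη ξ hξ)).le
    · exact hF0 _ _
  have hFeq : ∀ i, ∀ ξ ∈ E i, F i (x ξ) = 1 := by
    intro i ξ hξ
    apply le_antisymm (hF1 _ _)
    have := Finset.le_sup' (fun η => g η (x ξ)) hξ
    rw [hgx ξ] at this
    exact this
  have hFhigh : ∀ i j, i < j → ∃ η ∈ E i, 1 / 2 < F j (x η) := by
    intro i j hij
    obtain ⟨η, hη, ξ, hξ, h⟩ := hinc i j hij
    exact ⟨η, hη, h.trans_le (Finset.le_sup' (fun ξ => g ξ (x η)) hξ)⟩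
  apply hu
  refine no_unc_discrete hs (ι := W)
    (fun i => ⟨fun y => F (s i) y - F i y, (hFc (s i)).sub (hFc i)⟩)
    (fun i => {f | ∀ ξ ∈ E (s i), 1 / 2 < f.1 (x ξ)}) ?_ ?_ ?_
  · intro i
    have h1 : {f : {f : X → ℝ // Continuous f} | ∀ ξ ∈ E (s i), 1 / 2 < f.1 (x ξ)}
        = ⋂ ξ ∈ E (s i), {f | 1 / 2 < f.1 (x ξ)} := by
      ext f
      simp
    rw [h1]
    apply isOpen_biInter_finset
    intro ξ _
    exact isOpen_lt continuous_const ((continuous_apply (x ξ)).comp continuous_subtype_val)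
  · intro i ξ hξ
    change 1 / 2 < F (s i) (x ξ) - F i (x ξ)
    rw [hFeq (s i) ξ hξ, hFlow i (s i) (hs1 i) ξ hξ]
    norm_num
  · intro i j hj
    have hj' : ∀ ξ ∈ E (s i), 1 / 2 < F (s j) (x ξ) - F j (x ξ) := hj
    rcases lt_trichotomy i j with h | h | h
    · exfalso
      rcases lt_or_eq_of_le (hs2 i j h) with h2 | h2
      · obtain ⟨ξ, hξ, h3⟩ := hFhigh (s i) j h2
        have h1 := hj' ξ hξ
        have h4 := hF1 (s j) (x ξ)
        linarith
      · obtain ⟨ξ, hξ⟩ := hne (s i)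
        have h1 := hj' ξ hξ
        have h4 := hF1 (s j) (x ξ)
        rw [← h2, hFeq (s i) ξ hξ] at h1
        rw [← h2] at h4
        linarith
    · exact h.symm
    · exfalso
      obtain ⟨ξ, hξ⟩ := hne (s i)
      have h1 := hj' ξ hξ
      have h2 : s j < s i := (hs2 j i h).trans_lt (hs1 i)
      rw [hFlow (s j) (s i) h2 ξ hξ, hFlow j (s i) (h.trans (hs1 i)) ξ hξ] at h1
      norm_num at h1

end main

/-- the well-order of type `ω₁` -/
lemma exists_W : ∃ (W : Type) (_ : LinearOrder W) (_ : WellFoundedLT W), #W = ℵ₁ ∧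
    (∀ a : W, (Iio a).Countable) ∧ ¬ Countable W := by
  refine ⟨(Cardinal.aleph 1).ord.ToType, inferInstance, inferInstance, by simp, ?_, ?_⟩
  · intro a
    have hW : #(Cardinal.aleph 1).ord.ToType = ℵ₁ := by simp
    have h1 : #(Iio a) < #(Cardinal.aleph 1).ord.ToType := Cardinal.mk_Iio_lt a (by simp)
    rw [hW] at h1
    rw [← Cardinal.le_aleph0_iff_set_countable, ← Order.lt_succ_iff, ← Cardinal.aleph_zero,
      Cardinal.succ_aleph]
    simpa using h1
  · intro h
    have hW : #(Cardinal.aleph 1).ord.ToType = ℵ₁ := by simp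
    have h1 := Cardinal.mk_le_aleph0_iff.mpr h
    rw [hW] at h1
    exact absurd h1 (not_le.mpr Cardinal.aleph0_lt_aleph_one)

/-- hereditary separability -/
theorem hsep1 (hMA : MAaleph1) (X : Type u) [TopologicalSpace X] [T35Space X]
    (hs : ∀ D : Set {f : X → ℝ // Continuous f}, DiscreteTopology D → D.Countable) (A : Set X) :
    ∃ B ⊆ A, B.Countable ∧ A ⊆ closure B := by
  classical
  by_contra hcon
  push Not at hcon
  obtain ⟨W, _, _, hW, hc, hu⟩ := exists_W
  -- the left separated sequence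
  have hgood : ∀ B : Set A, B.Countable → ∃ t : A, (t : X) ∉ closure (Subtype.val '' B) := by
    intro B hB
    have h1 := hcon (Subtype.val '' B) (by rintro _ ⟨a, _, rfl⟩; exact a.2) (hB.image _)
    rw [Set.not_subset] at h1
    obtain ⟨a, haA, ha⟩ := h1
    exact ⟨⟨a, haA⟩, ha⟩
  obtain ⟨p, hp⟩ := rec_seq (W := W) hc
    (fun (B : Set A) (t : A) => (t : X) ∉ closure (Subtype.val '' B)) hgood
  let x : W → X := fun i => (p i : X)
  have hx : ∀ i, x i ∉ closure (x '' Iio i) := by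
    intro i
    have h1 := hp i
    rw [Set.image_image] at h1
    exact h1
  have hcr : ∀ i, ∃ f : X → unitInterval, Continuous f ∧ f (x i) = 0 ∧
      Set.EqOn f 1 (closure (x '' Iio i)) := fun i =>
    CompletelyRegularSpace.completely_regular (x i) (closure (x '' Iio i)) isClosed_closure (hx i)
  choose f hfc hf0 hf1 using hcr
  let g : W → X → ℝ := fun i y => 1 - (f i y : ℝ)
  have hgc : ∀ ξ, Continuous (g ξ) := fun ξ =>
    continuous_const.sub (continuous_subtype_val.comp (hfc ξ))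
  have hg0 : ∀ ξ y, 0 ≤ g ξ y := fun ξ y => sub_nonneg.mpr (f ξ y).2.2
  have hg1 : ∀ ξ y, g ξ y ≤ 1 := fun ξ y => sub_le_self _ (f ξ y).2.1
  have hgx : ∀ ξ, g ξ (x ξ) = 1 := fun ξ => by simp [g, hf0 ξ]
  have hgl : ∀ ξ η, η < ξ → g ξ (x η) = 0 := by
    intro ξ η h
    have h1 : f ξ (x η) = 1 := hf1 ξ (subset_closure (mem_image_of_mem x h))
    simp [g, h1]
  obtain ⟨S, hSunc, hSOK⟩ := homogeneous hMA hW hc hu (fun η ξ => 1 / 2 < g η (x ξ))
    (fun E hne hlt hinc => blocks hc hu hs x g hgc hg0 hg1 hgx hgl E hne hlt hinc)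
  apply hSunc
  have hfin : Countable S := no_unc_discrete hs (ι := S)
    (fun ξ => ⟨g ξ.1, hgc ξ.1⟩) (fun ξ => {f | 1 / 2 < f.1 (x ξ.1)})
    (fun ξ => isOpen_lt continuous_const
      ((continuous_apply (x ξ.1)).comp continuous_subtype_val))
    (fun ξ => by
      change 1 / 2 < g ξ.1 (x ξ.1)
      rw [hgx]
      norm_num)
    (fun i j hj => by
      have hj' : 1 / 2 < g j.1 (x i.1) := hj
      rcases lt_trichotomy i.1 j.1 with h | h | h
      · rw [hgl j.1 i.1 h] at hj'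
        norm_num at hj'
      · exact Subtype.ext h.symm
      · exact absurd hj' (hSOK j.1 j.2 i.1 i.2 h))
  exact hfin.to_set

/-- the hereditary Lindelöf property -/
theorem hlin1 (hMA : MAaleph1) (X : Type u) [TopologicalSpace X] [T35Space X]
    (hs : ∀ D : Set {f : X → ℝ // Continuous f}, DiscreteTopology D → D.Countable) (A : Set X) :
    IsLindelof A := by
  classical
  refine isLindelof_of_countable_subcover ?_
  intro ι U hU hA
  by_contra hcon
  push Not at hcon
  obtain ⟨W, _, _, hW, hc, hu⟩ := exists_W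
  have hidx : ∀ a : A, ∃ i, (a : X) ∈ U i := fun a => mem_iUnion.1 (hA a.2)
  choose n hn using hidx
  -- the right separated sequence
  have hgood : ∀ B : Set A, B.Countable → ∃ t : A, ∀ b ∈ B, (t : X) ∉ U (n b) := by
    intro B hB
    have h1 := hcon (n '' B) (hB.image _)
    rw [Set.not_subset] at h1
    obtain ⟨a, haA, ha⟩ := h1
    refine ⟨⟨a, haA⟩, fun b hb hab => ha ?_⟩
    exact mem_biUnion (mem_image_of_mem n hb) hab
  obtain ⟨p, hp⟩ := rec_seq (W := W) hc
    (fun (B : Set A) (t : A) => ∀ b ∈ B, (t : X) ∉ U (n b)) hgood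
  let x : W → X := fun i => (p i : X)
  have hx : ∀ η ξ, η < ξ → x ξ ∉ U (n (p η)) := fun η ξ h =>
    hp ξ (p η) (mem_image_of_mem p h)
  have hcr : ∀ i, ∃ f : X → unitInterval, Continuous f ∧ f (x i) = 0 ∧
      Set.EqOn f 1 (U (n (p i)))ᶜ := fun i =>
    CompletelyRegularSpace.completely_regular (x i) (U (n (p i)))ᶜ (hU _).isClosed_compl
      (fun h => h (hn (p i)))
  choose f hfc hf0 hf1 using hcr
  let g : W → X → ℝ := fun i y => 1 - (f i y : ℝ)
  have hgc : ∀ ξ, Continuous (g ξ) := fun ξ =>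
    continuous_const.sub (continuous_subtype_val.comp (hfc ξ))
  have hg0 : ∀ ξ y, 0 ≤ g ξ y := fun ξ y => sub_nonneg.mpr (f ξ y).2.2
  have hg1 : ∀ ξ y, g ξ y ≤ 1 := fun ξ y => sub_le_self _ (f ξ y).2.1
  have hgx : ∀ ξ, g ξ (x ξ) = 1 := fun ξ => by simp [g, hf0 ξ]
  have hgl : ∀ η ξ, η < ξ → g η (x ξ) = 0 := by
    intro η ξ h
    have h1 : f η (x ξ) = 1 := hf1 η (hx η ξ h)
    simp [g, h1]
  obtain ⟨S, hSunc, hSOK⟩ := homogeneous hMA hW hc hu (fun η ξ => 1 / 2 < g ξ (x η))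
    (fun E hne hlt hinc => blocks_dual hc hu hs x g hgc hg0 hg1 hgx hgl E hne hlt hinc)
  apply hSunc
  have hfin : Countable S := no_unc_discrete hs (ι := S)
    (fun ξ => ⟨g ξ.1, hgc ξ.1⟩) (fun ξ => {f | 1 / 2 < f.1 (x ξ.1)})
    (fun ξ => isOpen_lt continuous_const
      ((continuous_apply (x ξ.1)).comp continuous_subtype_val))
    (fun ξ => by
      change 1 / 2 < g ξ.1 (x ξ.1)
      rw [hgx]
      norm_num)
    (fun i j hj => by
      have hj' : 1 / 2 < g j.1 (x i.1) := hj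
      rcases lt_trichotomy i.1 j.1 with h | h | h
      · exact absurd hj' (hSOK i.1 i.2 j.1 j.2 h)
      · exact Subtype.ext h.symm
      · rw [hgl j.1 i.1 h] at hj'
        norm_num at hj')
  exact hfin.to_set

/-- **Countable spread of `C_p(X)` under Martin's axiom for `ℵ₁` dense sets.** Martin's axiom
together with the failure of the continuum hypothesis implies Martin's axiom for `ℵ₁` dense sets,
and under the latter every Tychonoff space `X` such that `C_p(X)` has countable spread is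
separable, and in fact every subspace of `X` is separable and Lindelöf. -/
theorem result :
    (MartinAxiom → (ℵ₁ : Cardinal.{0}) < 𝔠 → MAaleph1) ∧
    (MAaleph1 → ∀ (X : Type u) [TopologicalSpace X] [T35Space X],
      spread {f : X → ℝ // Continuous f} = ℵ₀ →
        TopologicalSpace.SeparableSpace X ∧
        (∀ A : Set X, ∃ B ⊆ A, B.Countable ∧ A ⊆ closure B) ∧
        ∀ A : Set X, IsLindelof A) := by
  refine ⟨fun hMA hCH P _ _ hP 𝒟 h𝒟 hD => hMA P hP 𝒟 (h𝒟.trans_lt hCH) hD, ?_⟩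
  intro hMA X _ _ hs
  have hs' := countable_of_spread hs
  refine ⟨?_, hsep1 hMA X hs', hlin1 hMA X hs'⟩
  obtain ⟨B, _, hB, hB2⟩ := hsep1 hMA X hs' univ
  exact ⟨B, hB, fun y => hB2 (mem_univ y)⟩

end Pool.Agent.Results.MP_81e7df_gt.HereditaryBoth
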